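import Pool.Agent.K3h26.R5.Stm
import Pool.Agent.K3h26.KP.Gen

/-!
# Dimension five (MP_c4753b_co), brick L6: the sum of the overlaps in the limit (written by helper99
after `L6G` of helper26)
-/

set_option autoImplicit false

open MeasureTheory Filter Topology Set
open scoped ENNReal

namespace Pool.Agent.K3h99.R5

open H947TP hiding SS
open Pool.Agent.K3h26.R5

theorem cont_n1 : Continuous n1 := by unfold n1; fun_prop

theorem cont_ni : Continuous ni := by unfold ni; fun_prop

theorem cont_my : Continuous my := by unfold my; fun_prop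

theorem cont_sy : Continuous sy := by unfold sy; fun_prop

theorem cont_rh (lam : ℝ) : Continuous (rh lam) := by
  have := cont_my
  unfold rh
  fun_prop

theorem cont_mu : Continuous mu := by unfold mu; fun_prop

theorem cont_psi : Continuous psi := by unfold psi; fun_prop

theorem my_nonneg (v : Fin 5 → ℝ) : 0 ≤ my v := (abs_nonneg _).trans (le_max_left _ _)

theorem rh_nonneg {lam : ℝ} (h0 : 0 ≤ lam) (h1 : lam ≤ 1) (v : Fin 5 → ℝ) : 0 ≤ rh lam v := by
  unfold rh
  have := mul_nonneg h0 (my_nonneg v)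
  linarith

theorem rh_le {lam : ℝ} (h0 : 0 ≤ lam) (h1 : lam ≤ 1) {v : Fin 5 → ℝ} (hv : my v ≤ 1) :
    rh lam v ≤ 1 := by
  unfold rh
  have : lam * my v ≤ lam * 1 := mul_le_mul_of_nonneg_left hv h0
  linarith

theorem sy_nonneg (v : Fin 5 → ℝ) : 0 ≤ sy v := by unfold sy; positivity

theorem sy_le {v : Fin 5 → ℝ} (hv : my v ≤ 1) : sy v ≤ 1 := by
  unfold sy
  have h1 : |v 3| ≤ 1 := (le_max_left _ _).trans hv
  have h2 : |v 4| ≤ 1 := (le_max_right _ _).trans hv
  linarith

theorem mu_nonneg {v : Fin 5 → ℝ} (hv : my v ≤ 1) : 0 ≤ mu v := by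
  unfold mu
  have h1 : |v 3| ≤ 1 := (le_max_left _ _).trans hv
  have h2 : |v 4| ≤ 1 := (le_max_right _ _).trans hv
  exact mul_nonneg (by linarith) (by linarith)

theorem mu_zero {v : Fin 5 → ℝ} (hv : my v ≤ 1) (hv' : ¬ my v < 1) : mu v = 0 := by
  have h1 : my v = 1 := le_antisymm hv (not_lt.1 hv')
  unfold my at h1
  unfold mu
  rcases le_total |v 3| |v 4| with h | h
  · rw [max_eq_right h] at h1
    rw [h1]
    ring
  · rw [max_eq_left h] at h1
    rw [h1]
    ring

theorem cases_H (i j k : ℤ) (h : |2 * i + k| + |2 * j + k| + |k| = 3)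
    (hp : 0 ≤ 4 * (2 * i + k) + 2 * (2 * j + k) + k) :
    2 * i + k = 1 ∧ (2 * j + k = 1 ∨ 2 * j + k = -1) ∧ (k = 1 ∨ k = -1) := by
  rcases abs_cases (2 * i + k) with ⟨h1, h1'⟩ | ⟨h1, h1'⟩ <;>
  rcases abs_cases (2 * j + k) with ⟨h2, h2'⟩ | ⟨h2, h2'⟩ <;>
  rcases abs_cases k with ⟨h3, h3'⟩ | ⟨h3, h3'⟩ <;>
  rw [h1, h2, h3] at h <;> omega

theorem cases_S (i j k : ℤ) (h : |2 * i + k| + |2 * j + k| + |k| ≤ 3)
    (hm : |2 * i + k| = 2 ∨ |2 * j + k| = 2 ∨ |k| = 2)
    (hp : 0 ≤ 4 * (2 * i + k) + 2 * (2 * j + k) + k) :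
    (2 * i + k = 2 ∧ 2 * j + k = 0 ∧ k = 0) ∨ (2 * i + k = 0 ∧ 2 * j + k = 2 ∧ k = 0) ∨
      (2 * i + k = 0 ∧ 2 * j + k = 0 ∧ k = 2) := by
  rcases abs_cases (2 * i + k) with ⟨h1, h1'⟩ | ⟨h1, h1'⟩ <;>
  rcases abs_cases (2 * j + k) with ⟨h2, h2'⟩ | ⟨h2, h2'⟩ <;>
  rcases abs_cases k with ⟨h3, h3'⟩ | ⟨h3, h3'⟩ <;>
  rw [h1, h2, h3] at h <;> rw [h1, h2, h3] at hm <;> omega

/-- the vectors of bounded size of a tiling lattice are finitely many -/
theorem finite_W (L : AddSubgroup (Fin 5 → ℝ)) (hL : IsT L) :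
    {u : Fin 5 → ℝ | u ∈ L ∧ n1 u ≤ 3 ∧ ni u ≤ 2 ∧ my u ≤ 1}.Finite := by
  have hfin : (Set.Icc (fun _ : Fin 5 => (-7 : ℤ)) (fun _ => 7)).Finite := Set.finite_Icc _ _
  refine Set.Finite.of_finite_image (f := fun (u : Fin 5 → ℝ) (i : Fin 5) => ⌊2 * u i⌋)
    (hfin.subset ?_) ?_
  · rintro _ ⟨u, ⟨-, h1, h2, h3⟩, rfl⟩
    have hb : ∀ i, |u i| ≤ 3 := by
      unfold ni at h2
      unfold my at h3
      have e0 : |u 0| ≤ 2 := (le_max_left _ _).trans h2
      have e1 : |u 1| ≤ 2 := ((le_max_left _ _).trans (le_max_right _ _)).trans h2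
      have e2 : |u 2| ≤ 2 := ((le_max_right _ _).trans (le_max_right _ _)).trans h2
      have e3 : |u 3| ≤ 1 := (le_max_left _ _).trans h3
      have e4 : |u 4| ≤ 1 := (le_max_right _ _).trans h3
      intro i
      fin_cases i
      · exact e0.trans (by norm_num)
      · exact e1.trans (by norm_num)
      · exact e2.trans (by norm_num)
      · exact e3.trans (by norm_num)
      · exact e4.trans (by norm_num)
    refine ⟨fun i => ?_, fun i => ?_⟩
    · rw [Int.le_floor]
      have := abs_le.mp (hb i)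
      push_cast
      linarith [this.1]
    · have h4 : ⌊2 * u i⌋ ≤ (7 : ℤ) := by
        have h5 : (⌊2 * u i⌋ : ℝ) ≤ 2 * u i := Int.floor_le _
        have h6 := (abs_le.mp (hb i)).2
        have h7 : (⌊2 * u i⌋ : ℝ) ≤ ((7 : ℤ) : ℝ) := by
          push_cast
          linarith
        exact_mod_cast h7
      exact h4
  · rintro u ⟨hu, -⟩ w ⟨hw, -⟩ huw
    by_contra hne
    have hd : ∀ i, |(u - w) i| < 1 / 2 := by
      intro i
      have h1 : ⌊2 * u i⌋ = ⌊2 * w i⌋ := congrFun huw i
      have h2 := Int.floor_le (2 * u i)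
      have h3 := Int.lt_floor_add_one (2 * u i)
      have h4 := Int.floor_le (2 * w i)
      have h5 := Int.lt_floor_add_one (2 * w i)
      rw [h1] at h2 h3
      rw [Pi.sub_apply, abs_lt]
      constructor <;> linarith
    have h0 := hd 0
    have h1 := hd 1
    have h2 := hd 2
    have h3 := hd 3
    have h4 := hd 4
    rcases hL.1 (u - w) (L.sub_mem hu hw) (sub_ne_zero.2 hne) with h | h | h
    · unfold n1 at h
      linarith
    · unfold ni at h
      have : max |(u - w) 0| (max |(u - w) 1| |(u - w) 2|) < 2 :=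
        max_lt (by linarith) (max_lt (by linarith) (by linarith))
      linarith
    · unfold my at h
      have : max |(u - w) 3| |(u - w) 4| < 1 := max_lt (by linarith) (by linarith)
      linarith

theorem t_L6 (hOVH : S_OVH) (hOVS : S_OVS) (hSL : S_SL) : S_L6 := by
  classical
  intro lam η ε Λ U hlam0 hlam1 hη hε hεt hsep htile
  set L := Lim U Λ with hL
  have hWfin := finite_W L htile
  set W : Finset (Fin 5 → ℝ) := hWfin.toFinset with hWdef
  have hW : ∀ u, u ∈ W ↔ u ∈ L ∧ n1 u ≤ 3 ∧ ni u ≤ 2 ∧ my u ≤ 1 := by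
    intro u
    rw [hWdef, Set.Finite.mem_toFinset]
    rfl
  -- the approximating sequences
  have hex : ∀ u ∈ W, ∃ v : ℕ → (Fin 5 → ℝ), (∀ m, v m ∈ Λ m) ∧ Tendsto v U (𝓝 u) := by
    intro u hu
    exact ((hW u).1 hu).1
  choose! v hvΛ hvt using hex
  -- (i)
  have hi : ∀ᶠ m in U, ∀ x ∈ Λ m, n1 x < 3 → ni x < 2 → my x < 1 → ∃ u ∈ W, x = v u m := by
    by_contra hcon
    have hcon' := Ultrafilter.eventually_not.2 hcon
    have hcon2 : ∀ᶠ m in U, ∃ x, x ∈ Λ m ∧ (n1 x < 3 ∧ ni x < 2 ∧ my x < 1) ∧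
        ∀ u ∈ W, x ≠ v u m := by
      filter_upwards [hcon'] with m hm
      push Not at hm
      obtain ⟨x, hx1, hx2, hx3, hx4, hx5⟩ := hm
      exact ⟨x, hx1, ⟨hx2, hx3, hx4⟩, hx5⟩
    have hch : ∃ w : ℕ → (Fin 5 → ℝ), ∀ᶠ m in U, w m ∈ Λ m ∧
        (n1 (w m) < 3 ∧ ni (w m) < 2 ∧ my (w m) < 1) ∧ ∀ u ∈ W, w m ≠ v u m := by
      refine ⟨fun m => if h : ∃ x, x ∈ Λ m ∧ (n1 x < 3 ∧ ni x < 2 ∧ my x < 1) ∧
        ∀ u ∈ W, x ≠ v u m then h.choose else 0, ?_⟩
      filter_upwards [hcon2] with m hm
      rw [dif_pos hm]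
      exact hm.choose_spec
    obtain ⟨w, hw⟩ := hch
    obtain ⟨x, hxL, hxt⟩ := L3 5 Λ U 2 w (by
      filter_upwards [hw] with m hm
      refine ⟨hm.1, ?_⟩
      obtain ⟨-, h2, h3⟩ := hm.2.1
      unfold ni at h2
      unfold my at h3
      have e0 : |w m 0| ≤ 2 := (le_max_left _ _).trans h2.le
      have e1 : |w m 1| ≤ 2 := ((le_max_left _ _).trans (le_max_right _ _)).trans h2.le
      have e2 : |w m 2| ≤ 2 := ((le_max_right _ _).trans (le_max_right _ _)).trans h2.le
      have e3 : |w m 3| ≤ 1 := (le_max_left _ _).trans h3.le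
      have e4 : |w m 4| ≤ 1 := (le_max_right _ _).trans h3.le
      intro l
      fin_cases l
      · exact e0
      · exact e1
      · exact e2
      · exact e3.trans (by norm_num)
      · exact e4.trans (by norm_num))
    have hxW : x ∈ W := by
      refine (hW x).2 ⟨hxL, ?_, ?_, ?_⟩
      · refine le_of_tendsto ((cont_n1.tendsto x).comp hxt) ?_
        filter_upwards [hw] with m hm
        exact hm.2.1.1.le
      · refine le_of_tendsto ((cont_ni.tendsto x).comp hxt) ?_
        filter_upwards [hw] with m hm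
        exact hm.2.1.2.1.le
      · refine le_of_tendsto ((cont_my.tendsto x).comp hxt) ?_
        filter_upwards [hw] with m hm
        exact hm.2.1.2.2.le
    have hz : Tendsto (fun m => w m - v x m) U (𝓝 0) := by
      have := hxt.sub (hvt x hxW)
      rwa [sub_self] at this
    have hN1 : ∀ᶠ m in U, n1 (w m - v x m) / 3 + ε m * rh lam (w m - v x m) < 1 := by
      have h1 : Tendsto (fun m => n1 (w m - v x m)) U (𝓝 (n1 0)) := (cont_n1.tendsto 0).comp hz
      have h2 : Tendsto (fun m => rh lam (w m - v x m)) U (𝓝 (rh lam 0)) :=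
        ((cont_rh lam).tendsto 0).comp hz
      have h3 := (h1.div_const 3).add (hεt.mul h2)
      have h4 : n1 0 / 3 + 0 * rh lam 0 = 0 := by simp [n1]
      rw [h4] at h3
      exact h3.eventually (gt_mem_nhds one_pos)
    have hN2 : ∀ᶠ m in U, ni (w m - v x m) / 2 + ε m * sy (w m - v x m) < 1 := by
      have h1 : Tendsto (fun m => ni (w m - v x m)) U (𝓝 (ni 0)) := (cont_ni.tendsto 0).comp hz
      have h2 : Tendsto (fun m => sy (w m - v x m)) U (𝓝 (sy 0)) := (cont_sy.tendsto 0).comp hz
      have h3 := (h1.div_const 2).add (hεt.mul h2)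
      have h4 : ni 0 / 2 + 0 * sy 0 = 0 := by simp [ni]
      rw [h4] at h3
      exact h3.eventually (gt_mem_nhds one_pos)
    have hN3 : ∀ᶠ m in U, my (w m - v x m) < 1 := by
      have h1 : Tendsto (fun m => my (w m - v x m)) U (𝓝 (my 0)) := (cont_my.tendsto 0).comp hz
      have h4 : my 0 = 0 := by simp [my]
      rw [h4] at h1
      exact h1.eventually (gt_mem_nhds one_pos)
    obtain ⟨m, ⟨⟨hm1, hm2⟩, hm3⟩, hm4⟩ := (((hw.and hN1).and hN2).and hN3).exists
    rcases hsep m (w m - v x m) ((Λ m).sub_mem hm1.1 (hvΛ x hxW m))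
      (sub_ne_zero.2 (hm1.2.2 x hxW)) with h | h | h
    · exact absurd h (not_le.2 hm2)
    · exact absurd h (not_le.2 hm3)
    · exact absurd h (not_le.2 hm4)
  -- the weights
  set t : ((Fin 5 → ℝ) → ℝ) → ℝ → ℝ → ℝ → (Fin 5 → ℝ) → ℝ := fun f a b c u =>
    if u ∈ WW L a b c then mu u * f u else 0 with htdef
  set T : (Fin 5 → ℝ) → ℝ := fun u =>
    9 / 4 * (t (rh lam) 1 1 1 u + t (rh lam) 1 1 (-1) u + t (rh lam) 1 (-1) 1 u +
      t (rh lam) 1 (-1) (-1) u) + (t sy 2 0 0 u + t sy 0 2 0 u + t sy 0 0 2 u) with hTdef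
  have ht0 : ∀ f : (Fin 5 → ℝ) → ℝ, (∀ x, 0 ≤ f x) → ∀ a b c, ∀ u ∈ W, 0 ≤ t f a b c u := by
    intro f hf a b c u hu
    rw [htdef]
    dsimp only
    split_ifs
    · exact mul_nonneg (mu_nonneg ((hW u).1 hu).2.2.2) (hf u)
    · exact le_rfl
  have htr := ht0 (rh lam) (rh_nonneg hlam0 hlam1)
  have hts := ht0 sy sy_nonneg
  have hT0 : ∀ u ∈ W, 0 ≤ T u := by
    intro u hu
    rw [hTdef]
    dsimp only
    have e1 := htr 1 1 1 u hu
    have e2 := htr 1 1 (-1) u hu
    have e3 := htr 1 (-1) 1 u hu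
    have e4 := htr 1 (-1) (-1) u hu
    have e5 := hts 2 0 0 u hu
    have e6 := hts 0 2 0 u hu
    have e7 := hts 0 0 2 u hu
    linarith
  have hEE : ∀ (f : (Fin 5 → ℝ) → ℝ) (a b c : ℝ), |a| + |b| + |c| ≤ 3 → |a| ≤ 2 → |b| ≤ 2 →
      |c| ≤ 2 → EE L a b c f = ∑ u ∈ W, t f a b c u := by
    intro f a b c h1 h2 h3 h4
    have hsub : WW L a b c ⊆ (W : Set (Fin 5 → ℝ)) := by
      rintro u ⟨g1, g2, g3, g4, g5⟩
      refine Finset.mem_coe.2 ((hW u).2 ⟨g1, ?_, ?_, g2.le⟩)
      · unfold n1
        rw [g3, g4, g5]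
        exact h1
      · unfold ni
        rw [g3, g4, g5]
        exact max_le h2 (max_le h3 h4)
    have hAfin : (WW L a b c).Finite := W.finite_toSet.subset hsub
    rw [EE, finsum_mem_eq_finite_toFinset_sum _ hAfin, htdef]
    dsimp only
    rw [← Finset.sum_filter]
    refine Finset.sum_congr ?_ fun _ _ => rfl
    ext u
    rw [Set.Finite.mem_toFinset, Finset.mem_filter]
    exact ⟨fun h => ⟨Finset.mem_coe.1 (hsub h), h⟩, fun h => h.2⟩
  have hSS : SS lam L = ∑ u ∈ W, T u := by
    have a1 : |(1 : ℝ)| = 1 := abs_one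
    have a2 : |(-1 : ℝ)| = 1 := by rw [abs_neg, abs_one]
    have a3 : |(2 : ℝ)| = 2 := abs_of_pos two_pos
    have a4 : |(0 : ℝ)| = 0 := abs_zero
    rw [SS, hEE _ 1 1 1, hEE _ 1 1 (-1), hEE _ 1 (-1) 1, hEE _ 1 (-1) (-1), hEE _ 2 0 0,
      hEE _ 0 2 0, hEE _ 0 0 2, hTdef]
    · dsimp only
      rw [Finset.sum_add_distrib, ← Finset.mul_sum, Finset.sum_add_distrib, Finset.sum_add_distrib,
        Finset.sum_add_distrib, Finset.sum_add_distrib, Finset.sum_add_distrib]
    all_goals first | rw [a1] | skip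
    all_goals first | rw [a2] | skip
    all_goals first | rw [a3] | skip
    all_goals first | rw [a4] | skip
    all_goals norm_num
  set η' : ℝ := η / (W.card + 1) with hη'
  have hcard : (0 : ℝ) < W.card + 1 := by positivity
  have hη'0 : 0 < η' := div_pos hη hcard
  have hε10 : ∀ᶠ m in U, ε m < 1 / 10 := hεt.eventually (gt_mem_nhds (by norm_num))
  -- the claim for one `u`
  have hclaim : ∀ u ∈ W, ∀ᶠ m in U, v u m ∈ PP (Λ m) → ov (v u m) ≤ ε m * (T u + η') := by
    intro u hu
    rcases U.em (fun m => v u m ∈ PP (Λ m)) with hin | hout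
    · obtain ⟨huL, hu1, hu2, hu3⟩ := (hW u).1 hu
      have hzt := hvt u hu
      have hpsi : 0 ≤ psi u := by
        refine ge_of_tendsto ((cont_psi.tendsto u).comp hzt) ?_
        filter_upwards [hin] with m hm
        exact hm.2.2.2.2.2
      have hmuT : Tendsto (fun m => mu (v u m)) U (𝓝 (mu u)) := (cont_mu.tendsto u).comp hzt
      have h10 : Tendsto (fun m => 1 + 10 * ε m) U (𝓝 1) := by
        have := (hεt.const_mul 10).const_add 1
        rwa [mul_zero, add_zero] at this
      have hor : ∀ᶠ m in U, (1 ≤ n1 (v u m) / 3 + ε m * rh lam (v u m)) ∨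
          (1 ≤ ni (v u m) / 2 + ε m * sy (v u m)) := by
        filter_upwards [hin] with m hm
        rcases hsep m (v u m) hm.1 hm.2.1 with h | h | h
        · exact Or.inl h
        · exact Or.inr h
        · exact absurd hm.2.2.2.2.1 (not_lt.2 h)
      rcases Ultrafilter.eventually_or.1 hor with hk | hk
      · -- hexagonal faces
        have hrT : Tendsto (fun m => rh lam (v u m)) U (𝓝 (rh lam u)) :=
          ((cont_rh lam).tendsto u).comp hzt
        have hn : n1 u = 3 := by
          refine le_antisymm hu1 ?_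
          have h3 := (((cont_n1.tendsto u).comp hzt).div_const 3).add (hεt.mul hrT)
          have h4 : 1 ≤ n1 u / 3 + 0 * rh lam u := ge_of_tendsto h3 hk
          linarith
        have hc : 9 / 4 * (mu u * rh lam u) ≤ T u := by
          by_cases hmy : my u < 1
          · obtain ⟨i, j, k, g0, g1, g2⟩ := (hSL L htile).1 u huL hmy
            have e0 : u 0 = ((2 * i + k : ℤ) : ℝ) := by rw [g0]; push_cast; ring
            have e1 : u 1 = ((2 * j + k : ℤ) : ℝ) := by rw [g1]; push_cast; ring
            have hn' : |2 * i + k| + |2 * j + k| + |k| = 3 := by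
              unfold n1 at hn
              rw [e0, e1, g2, ← Int.cast_abs, ← Int.cast_abs, ← Int.cast_abs] at hn
              exact_mod_cast hn
            have hp' : 0 ≤ 4 * (2 * i + k) + 2 * (2 * j + k) + k := by
              unfold psi at hpsi
              rw [e0, e1, g2] at hpsi
              exact_mod_cast hpsi
            obtain ⟨f0, f1, f2⟩ := cases_H i j k hn' hp'
            rw [f0] at e0
            have q1 := htr 1 1 1 u hu
            have q2 := htr 1 1 (-1) u hu
            have q3 := htr 1 (-1) 1 u hu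
            have q4 := htr 1 (-1) (-1) u hu
            have q5 := hts 2 0 0 u hu
            have q6 := hts 0 2 0 u hu
            have q7 := hts 0 0 2 u hu
            have hmem : ∀ b c : ℝ, u 1 = b → u 2 = c → t (rh lam) 1 b c u = mu u * rh lam u := by
              intro b c hb hc
              have : u ∈ WW L 1 b c := ⟨huL, hmy, by rw [e0]; norm_num, hb, hc⟩
              rw [htdef]
              dsimp only
              rw [if_pos this]
            rw [hTdef]
            dsimp only
            rcases f1 with f1 | f1 <;> rcases f2 with f2 | f2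
            · have := hmem 1 1 (by rw [e1, f1]; norm_num) (by rw [g2, f2]; norm_num)
              linarith
            · have := hmem 1 (-1) (by rw [e1, f1]; norm_num) (by rw [g2, f2]; norm_num)
              linarith
            · have := hmem (-1) 1 (by rw [e1, f1]; norm_num) (by rw [g2, f2]; norm_num)
              linarith
            · have := hmem (-1) (-1) (by rw [e1, f1]; norm_num) (by rw [g2, f2]; norm_num)
              linarith
          · rw [mu_zero hu3 hmy, zero_mul, mul_zero]
            exact hT0 u hu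
        have hlimT : Tendsto (fun m => 9 / 4 * (mu (v u m) * rh lam (v u m)) * (1 + 10 * ε m)) U
            (𝓝 (9 / 4 * (mu u * rh lam u) * 1)) := ((hmuT.mul hrT).const_mul _).mul h10
        rw [mul_one] at hlimT
        have hev : ∀ᶠ m in U, 9 / 4 * (mu (v u m) * rh lam (v u m)) * (1 + 10 * ε m) < T u + η' :=
          hlimT.eventually (gt_mem_nhds (by linarith))
        filter_upwards [hev, hk, hin, hε10] with m hm1 hm2 hm3 hm4 _
        obtain ⟨-, -, k1, k2, k3, -⟩ := hm3
        obtain ⟨τ, hτ⟩ : ∃ τ, τ = 1 - n1 (v u m) / 3 := ⟨_, rfl⟩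
        have hr0 := rh_nonneg hlam0 hlam1 (v u m)
        have hr1 := rh_le hlam0 hlam1 k3.le
        have hm0 := mu_nonneg k3.le
        have hεm := hε m
        have hτ0 : 0 ≤ τ := by rw [hτ]; linarith
        have hτ1 : τ ≤ ε m * rh lam (v u m) := by rw [hτ]; linarith
        have hτ2 : τ ≤ ε m := hτ1.trans (by nlinarith)
        have h1 : ov (v u m) ≤ mu (v u m) * (9 / 4 * τ * (1 + 10 * τ)) := by
          refine ENNReal.toReal_le_of_le_ofReal (mul_nonneg hm0 (by positivity)) ?_
          exact hOVH (v u m) τ k1 k2 k3 hτ (by linarith)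
        have h2 : 9 / 4 * τ * (1 + 10 * τ) ≤ 9 / 4 * (ε m * rh lam (v u m)) * (1 + 10 * ε m) := by
          have h3 : 0 ≤ ε m * rh lam (v u m) := mul_nonneg hεm.le hr0
          exact mul_le_mul (by linarith) (by linarith) (by linarith) (by positivity)
        calc ov (v u m) ≤ mu (v u m) * (9 / 4 * τ * (1 + 10 * τ)) := h1
          _ ≤ mu (v u m) * (9 / 4 * (ε m * rh lam (v u m)) * (1 + 10 * ε m)) :=
            mul_le_mul_of_nonneg_left h2 hm0
          _ = ε m * (9 / 4 * (mu (v u m) * rh lam (v u m)) * (1 + 10 * ε m)) := by ring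
          _ ≤ ε m * (T u + η') := mul_le_mul_of_nonneg_left hm1.le hεm.le
      · -- square faces
        have hsT : Tendsto (fun m => sy (v u m)) U (𝓝 (sy u)) := (cont_sy.tendsto u).comp hzt
        have hn : ni u = 2 := by
          refine le_antisymm hu2 ?_
          have h3 := (((cont_ni.tendsto u).comp hzt).div_const 2).add (hεt.mul hsT)
          have h4 : 1 ≤ ni u / 2 + 0 * sy u := ge_of_tendsto h3 hk
          linarith
        have hc : mu u * sy u ≤ T u := by
          by_cases hmy : my u < 1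
          · obtain ⟨i, j, k, g0, g1, g2⟩ := (hSL L htile).1 u huL hmy
            have e0 : u 0 = ((2 * i + k : ℤ) : ℝ) := by rw [g0]; push_cast; ring
            have e1 : u 1 = ((2 * j + k : ℤ) : ℝ) := by rw [g1]; push_cast; ring
            have hn' : |2 * i + k| + |2 * j + k| + |k| ≤ 3 := by
              have h := hu1
              unfold n1 at h
              rw [e0, e1, g2, ← Int.cast_abs, ← Int.cast_abs, ← Int.cast_abs] at h
              exact_mod_cast h
            have hm' : |2 * i + k| = 2 ∨ |2 * j + k| = 2 ∨ |k| = 2 := by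
              unfold ni at hn
              rw [e0, e1, g2, ← Int.cast_abs, ← Int.cast_abs, ← Int.cast_abs] at hn
              rcases max_choice ((|2 * i + k| : ℤ) : ℝ)
                (max ((|2 * j + k| : ℤ) : ℝ) ((|k| : ℤ) : ℝ)) with h | h
              · rw [h] at hn
                left
                exact_mod_cast hn
              · rw [h] at hn
                rcases max_choice ((|2 * j + k| : ℤ) : ℝ) ((|k| : ℤ) : ℝ) with h' | h'
                · rw [h'] at hn
                  right; left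
                  exact_mod_cast hn
                · rw [h'] at hn
                  right; right
                  exact_mod_cast hn
            have hp' : 0 ≤ 4 * (2 * i + k) + 2 * (2 * j + k) + k := by
              unfold psi at hpsi
              rw [e0, e1, g2] at hpsi
              exact_mod_cast hpsi
            have q1 := htr 1 1 1 u hu
            have q2 := htr 1 1 (-1) u hu
            have q3 := htr 1 (-1) 1 u hu
            have q4 := htr 1 (-1) (-1) u hu
            have q5 := hts 2 0 0 u hu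
            have q6 := hts 0 2 0 u hu
            have q7 := hts 0 0 2 u hu
            have hmem : ∀ a b c : ℝ, u 0 = a → u 1 = b → u 2 = c → t sy a b c u = mu u * sy u := by
              intro a b c ha hb hc
              have : u ∈ WW L a b c := ⟨huL, hmy, ha, hb, hc⟩
              rw [htdef]
              dsimp only
              rw [if_pos this]
            rw [hTdef]
            dsimp only
            rcases cases_S i j k hn' hm' hp' with ⟨f0, f1, f2⟩ | ⟨f0, f1, f2⟩ | ⟨f0, f1, f2⟩
            · have := hmem 2 0 0 (by rw [e0, f0]; norm_num) (by rw [e1, f1]; norm_num)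
                (by rw [g2, f2]; norm_num)
              linarith
            · have := hmem 0 2 0 (by rw [e0, f0]; norm_num) (by rw [e1, f1]; norm_num)
                (by rw [g2, f2]; norm_num)
              linarith
            · have := hmem 0 0 2 (by rw [e0, f0]; norm_num) (by rw [e1, f1]; norm_num)
                (by rw [g2, f2]; norm_num)
              linarith
          · rw [mu_zero hu3 hmy, zero_mul]
            exact hT0 u hu
        have hlimT : Tendsto (fun m => mu (v u m) * sy (v u m) * (1 + 10 * ε m)) U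
            (𝓝 (mu u * sy u * 1)) := (hmuT.mul hsT).mul h10
        rw [mul_one] at hlimT
        have hev : ∀ᶠ m in U, mu (v u m) * sy (v u m) * (1 + 10 * ε m) < T u + η' :=
          hlimT.eventually (gt_mem_nhds (by linarith))
        filter_upwards [hev, hk, hin, hε10] with m hm1 hm2 hm3 hm4 _
        obtain ⟨-, -, k1, k2, k3, -⟩ := hm3
        obtain ⟨τ, hτ⟩ : ∃ τ, τ = 1 - ni (v u m) / 2 := ⟨_, rfl⟩
        have hr0 := sy_nonneg (v u m)
        have hr1 := sy_le k3.le
        have hm0 := mu_nonneg k3.le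
        have hεm := hε m
        have hτ0 : 0 ≤ τ := by rw [hτ]; linarith
        have hτ1 : τ ≤ ε m * sy (v u m) := by rw [hτ]; linarith
        have hτ2 : τ ≤ ε m := hτ1.trans (by nlinarith)
        have h1 : ov (v u m) ≤ mu (v u m) * (τ * (1 + 10 * τ)) := by
          refine ENNReal.toReal_le_of_le_ofReal (mul_nonneg hm0 (by positivity)) ?_
          exact hOVS (v u m) τ k1 k2 k3 hτ (by linarith)
        have h2 : τ * (1 + 10 * τ) ≤ ε m * sy (v u m) * (1 + 10 * ε m) := by
          have h3 : 0 ≤ ε m * sy (v u m) := mul_nonneg hεm.le hr0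
          exact mul_le_mul (by linarith) (by linarith) (by linarith) (by positivity)
        calc ov (v u m) ≤ mu (v u m) * (τ * (1 + 10 * τ)) := h1
          _ ≤ mu (v u m) * (ε m * sy (v u m) * (1 + 10 * ε m)) :=
            mul_le_mul_of_nonneg_left h2 hm0
          _ = ε m * (mu (v u m) * sy (v u m) * (1 + 10 * ε m)) := by ring
          _ ≤ ε m * (T u + η') := mul_le_mul_of_nonneg_left hm1.le hεm.le
    · filter_upwards [hout] with m hm hm'
      exact absurd hm' hm
  have hclaim' : ∀ᶠ m in U, ∀ u ∈ W, v u m ∈ PP (Λ m) → ov (v u m) ≤ ε m * (T u + η') :=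
    (eventually_all_finset W).2 hclaim
  filter_upwards [hi, hclaim'] with m hm1 hm2
  have hmain : ∑ᶠ x ∈ PP (Λ m), ov x ≤ ∑ u ∈ W, ε m * (T u + η') := by
    refine L6aux.finsum_le (PP (Λ m)) ov W (fun u => v u m)
      (fun x hx => hm1 x hx.1 hx.2.2.1 hx.2.2.2.1 hx.2.2.2.2.1) ?_ _ ?_ ?_
    · intro x hx
      exact ENNReal.toReal_nonneg
    · intro u hu
      exact mul_nonneg (hε m).le (by linarith [hT0 u hu])
    · intro u hu hux
      exact hm2 u hu hux
  refine hmain.trans ?_
  rw [← Finset.mul_sum, Finset.sum_add_distrib, ← hSS, Finset.sum_const, nsmul_eq_mul]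
  refine mul_le_mul_of_nonneg_left ?_ (hε m).le
  have h5 : (W.card : ℝ) * η' ≤ η := by
    rw [hη', mul_div_assoc', div_le_iff₀ hcard]
    nlinarith
  linarith

end Pool.Agent.K3h99.R5
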